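import Pool.Agent.Helper54.SAW2.Stmts

set_option autoImplicit false

/-!
# Near walks of small depth
-/

namespace Pool.Agent.Helper55.SAW2

open Pool.Agent.Helper54.SAW Pool.Agent.Helper54.SAW2

theorem px_unfold (l : List St) (t : ℕ) : px l = refl (px (fold l t)) t := by
  rw [← px_fold, fold_fold']

theorem px_at (l : List St) (t : ℕ) : px (fold l t) t = px l t := by
  rw [px_fold]
  simp [Pool.Agent.Helper54.SAW2.refl]

theorem DA_eq {n R : ℕ} (l : List St) :
    DA n R l = dA R (refl (px (fold l (tip n l))) (tip n l)) (tip n l) := by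
  unfold DA
  conv_lhs => rw [px_unfold l (tip n l)]

theorem DB_eq {n R : ℕ} (l : List St) :
    DB n R l = dB R (refl (px (fold l (tip n l))) (tip n l)) n (tip n l) := by
  unfold DB
  conv_lhs => rw [px_unfold l (tip n l)]

theorem end_far {n M R : ℕ} (hM : 2 * R + 1 ≤ M) {l : List St} (h : l ∈ NearP n M R) :
    (R : ℤ) < px (fold l (tip n l)) n - px (fold l (tip n l)) (tip n l) := by
  have ht := tip_spec n l
  rw [px_at, px_fold]
  rw [mem_NearP] at h
  obtain ⟨h1, h2, h3, h4⟩ := h
  obtain ⟨t1, t2, t3⟩ := ht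
  have e1 := (abs_le.1 h3).2
  have hM' : (2 * R + 1 : ℤ) ≤ M := by exact_mod_cast hM
  unfold Pool.Agent.Helper54.SAW2.refl
  split_ifs with hn
  · have : tip n l = n := le_antisymm t1 hn
    rw [this] at h2
    omega
  · omega

theorem inj_aux {n M R : ℕ} (D : List St → ℕ)
    (hD : ∀ l ∈ NearP n M R, ∀ l' ∈ NearP n M R, fold l (tip n l) = fold l' (tip n l') →
      tip n l < tip n l' → D l ≠ D l') {l l' : List St} (h : l ∈ NearP n M R)
    (h' : l' ∈ NearP n M R) (hf : fold l (tip n l) = fold l' (tip n l')) (hDe : D l = D l') :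
    l = l' := by
  rcases lt_trichotomy (tip n l) (tip n l') with hlt | heq | hgt
  · exact absurd hDe (hD l h l' h' hf hlt)
  · have h1 : fold (fold l (tip n l)) (tip n l) = fold (fold l' (tip n l')) (tip n l') := by
      rw [hf, heq]
    rwa [fold_fold', fold_fold'] at h1
  · exact absurd hDe.symm (hD l' h' l h hf.symm hgt)

open Classical in
theorem card_aux {n M R Λ : ℕ} (hM : 2 * R + 1 ≤ M) (D : List St → ℕ)
    (hD : ∀ l ∈ NearP n M R, ∀ l' ∈ NearP n M R, fold l (tip n l) = fold l' (tip n l') →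
      tip n l < tip n l' → D l ≠ D l') :
    ((NearP n M R).filter (fun l => D l < Λ)).card ≤ Λ * (Far n M).card := by
  have h1 : ((NearP n M R).filter (fun l => D l < Λ)).card ≤
      (Finset.range Λ ×ˢ Far n M).card := by
    refine Finset.card_le_card_of_injOn (fun l => (D l, fold l (tip n l))) ?_ ?_
    · intro l hl
      rw [Finset.mem_coe, Finset.mem_filter] at hl
      rw [Finset.mem_coe, Finset.mem_product]
      refine ⟨Finset.mem_range.2 hl.2, ?_⟩
      exact (unfold_tip (by omega) hl.1).1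
    · intro l hl l' hl' he
      rw [Finset.mem_coe, Finset.mem_filter] at hl hl'
      simp only [Prod.mk.injEq] at he
      exact inj_aux D hD hl.1 hl'.1 he.2 he.1
  rwa [Finset.card_product, Finset.card_range] at h1

/-- block 9, first half -/
theorem smallA (hInj : InjAS) : SmallAS := by
  intro n M R Λ hM
  refine card_aux hM (fun l => DA n R l) ?_
  intro l hl l' hl' hf hlt
  obtain ⟨a1, a2, a3⟩ := unfold_tip (by omega) hl
  obtain ⟨b1, b2, b3⟩ := unfold_tip (by omega) hl'
  rw [← hf] at b1 b2 b3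
  have hx : (R : ℤ) ≤ px (fold l (tip n l)) (tip n l) := by
    rw [px_at]
    have := (mem_NearP.1 hl).2.1
    omega
  have h := hInj (px (fold l (tip n l))) n (tip n l) (tip n l') R hlt (tip_spec n l').1
    a2 a3 b2 b3 hx
  show DA n R l ≠ DA n R l'
  rw [DA_eq l, DA_eq l', ← hf]
  exact h.ne

/-- block 9, second half -/
theorem smallB (hInj : InjBS) : SmallBS := by
  intro n M R Λ hM
  refine card_aux hM (fun l => DB n R l) ?_
  intro l hl l' hl' hf hlt
  obtain ⟨a1, a2, a3⟩ := unfold_tip (by omega) hl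
  obtain ⟨b1, b2, b3⟩ := unfold_tip (by omega) hl'
  have hx := end_far hM hl'
  rw [← hf] at b1 b2 b3 hx
  have h := hInj (px (fold l (tip n l))) n (tip n l) (tip n l') R hlt (tip_spec n l').1
    a2 a3 b2 b3 hx
  show DB n R l ≠ DB n R l'
  rw [DB_eq l, DB_eq l', ← hf]
  exact h.ne'

end Pool.Agent.Helper55.SAW2
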